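import Pool.Agent.StarAbs.Proc

/-!
# Theorem S: in a system the star families of the tile graph have few leaves
-/

set_option autoImplicit false

namespace Pool.Agent.StarAbs

open Finset

variable {V : Type*} [Fintype V] [DecidableEq V]
variable {K : ℕ} {P : V → Finset V} {B X Z Φ : Finset V}

namespace Sys

omit [Fintype V] in
/-- (G), paths of length one. -/
lemma G1 (h : Sys K P B X Z Φ) {L : Finset V} {o y : V → V} {Q : Finset V} {cur : V → V}
    (hQ : Q ⊆ X \ Φ) (hS : State K P B X L o y Q cur) {a b : V} (ha : a ∈ X \ Φ)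
    (hb : b ∈ X \ Φ) (hab : a ≠ b) (h1 : ¬ Disjoint (P (cur a)) (P b))
    (hno : ¬ ∃ p ∈ P a, ∀ x ∈ X, p ∉ P (cur x)) : ¬ Disjoint (P (cur b)) (P a) := by
  have haX := (mem_sdiff.1 ha).1
  have hbX := (mem_sdiff.1 hb).1
  obtain ⟨u, hu1, hu2⟩ := Finset.not_disjoint_iff.1 h1
  obtain ⟨c, hcB, hcK, hca, hcX, hce⟩ := h.key (T := {a, b}) (j := a) (cur := cur)
    (e := fun _ => u)
    (by
      intro t ht
      rcases mem_insert.1 ht with rfl | ht
      · exact ha
      · rw [mem_singleton.1 ht]; exact hb)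
    (by rw [card_pair hab]; omega) (by simp)
    (fun x hx => hS.mem x (mem_sdiff.1 hx).1)
    (fun x hx z hz hne => hS.far x (mem_sdiff.1 hx).1 z (mem_sdiff.1 hz).1 hne)
    (fun x hx => hS.off x (h.PhiX hx) (fun hh => (mem_sdiff.1 (hQ hh)).2 hx))
    (by
      intro t ht
      rw [mem_erase, mem_insert, mem_singleton] at ht
      have : t = b := by tauto
      rw [this]; exact hu2)
  have hcu : Disjoint (P u) (P c) := hce b (by simp [hab.symm])
  push Not at hno
  obtain ⟨x, hx, hcx⟩ := hno c hca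
  have hself := h.self c hcB
  by_cases hxa : x = a
  · exfalso
    subst hxa
    have h2 : cur x ∈ P u := h.sym _ _ hu1 (hS.mem x hx).1.1
    have h3 : cur x ∈ P c := h.sym _ _ hcx (hS.mem x hx).1.1
    exact not_disj h2 h3 hcu
  · by_cases hxb : x = b
    · subst hxb
      rw [Finset.not_disjoint_iff]
      exact ⟨c, hcx, hca⟩
    · exfalso
      exact not_disj hcx hself (hcX x (by simp [hx, hxa, hxb]))

omit [Fintype V] in
/-- (G), paths of length two. -/
lemma G2 (h : Sys K P B X Z Φ) {L : Finset V} {o y : V → V} {Q : Finset V} {cur : V → V}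
    (hQ : Q ⊆ X \ Φ) (hS : State K P B X L o y Q cur) {a b d : V} (ha : a ∈ X \ Φ)
    (hb : b ∈ X \ Φ) (hd : d ∈ X \ Φ) (hab : a ≠ b) (had : a ≠ d) (hbd : b ≠ d)
    (h1 : ¬ Disjoint (P (cur a)) (P b)) (h2 : ¬ Disjoint (P (cur b)) (P d))
    (hno : ¬ ∃ p ∈ P a, ∀ x ∈ X, p ∉ P (cur x)) : ¬ Disjoint (P (cur d)) (P a) := by
  have haX := (mem_sdiff.1 ha).1
  have hbX := (mem_sdiff.1 hb).1
  obtain ⟨u, hu1, hu2⟩ := Finset.not_disjoint_iff.1 h1
  obtain ⟨v, hv1, hv2⟩ := Finset.not_disjoint_iff.1 h2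
  obtain ⟨c, hcB, hcK, hca, hcX, hce⟩ := h.key (T := {a, b, d}) (j := a) (cur := cur)
    (e := fun t => if t = b then u else v)
    (by
      intro t ht
      rw [mem_insert, mem_insert, mem_singleton] at ht
      rcases ht with rfl | rfl | rfl
      · exact ha
      · exact hb
      · exact hd)
    (by
      have h3 : ({a, b, d} : Finset V).card ≤ ({b, d} : Finset V).card + 1 := card_insert_le _ _
      have h4 : ({b, d} : Finset V).card ≤ ({d} : Finset V).card + 1 := card_insert_le _ _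
      rw [card_singleton] at h4
      omega) (by simp)
    (fun x hx => hS.mem x (mem_sdiff.1 hx).1)
    (fun x hx z hz hne => hS.far x (mem_sdiff.1 hx).1 z (mem_sdiff.1 hz).1 hne)
    (fun x hx => hS.off x (h.PhiX hx) (fun hh => (mem_sdiff.1 (hQ hh)).2 hx))
    (by
      intro t ht
      rw [mem_erase, mem_insert, mem_insert, mem_singleton] at ht
      obtain ⟨hta, ht⟩ := ht
      rcases ht with rfl | rfl | rfl
      · exact absurd rfl hta
      · simp only [if_true]; exact hu2
      · simp only [if_neg hbd.symm]; exact hv2)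
  have hcu : Disjoint (P u) (P c) := by
    have := hce b (by simp [hab.symm])
    simpa using this
  have hcv : Disjoint (P v) (P c) := by
    have := hce d (by simp [had.symm])
    simpa [hbd.symm] using this
  push Not at hno
  obtain ⟨x, hx, hcx⟩ := hno c hca
  have hself := h.self c hcB
  by_cases hxa : x = a
  · exfalso
    subst hxa
    have h2 : cur x ∈ P u := h.sym _ _ hu1 (hS.mem x hx).1.1
    have h3 : cur x ∈ P c := h.sym _ _ hcx (hS.mem x hx).1.1
    exact not_disj h2 h3 hcu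
  · by_cases hxb : x = b
    · exfalso
      subst hxb
      have h2 : cur x ∈ P v := h.sym _ _ hv1 (hS.mem x hx).1.1
      have h3 : cur x ∈ P c := h.sym _ _ hcx (hS.mem x hx).1.1
      exact not_disj h2 h3 hcv
    · by_cases hxd : x = d
      · subst hxd
        rw [Finset.not_disjoint_iff]
        exact ⟨c, hcx, hca⟩
      · exfalso
        exact not_disj hcx hself (hcX x (by simp [hx, hxa, hxb, hxd]))

omit [Fintype V] in
/-- A good leaf that uses no vertex of `W` exchanges only with its centre. -/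
lemma good_leaf (h : Sys K P B X Z Φ) {L : Finset V} {o g y : V → V}
    (hD : Data P (X \ Φ) L o g y) {Q : Finset V} {cur : V → V}
    (hQ : Q ⊆ X \ Φ) (hLQ : L ⊆ Q) (hS : State K P B X L o y Q cur) {j : V} (hj : j ∈ L)
    (hno : ¬ ∃ p ∈ P j, ∀ x ∈ X, p ∉ P (cur x))
    (hW : Disjoint (P (cur j)) (B \ X.biUnion P)) :
    ¬ Disjoint (P (cur j)) (P (o j)) ∧ ¬ Disjoint (P (cur (o j))) (P j) := by
  have hjR := hD.LR hj
  have hjX := (mem_sdiff.1 hjR).1
  have havoid := hS.avoid j hj (hLQ hj)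
  have hcur := hS.mem j hjX
  obtain ⟨v, hv1, hv2⟩ : ∃ v ∈ P (cur j), v ∉ P j := by
    by_contra hcon
    push Not at hcon
    have hsub : P (cur j) ⊆ P j := hcon
    have heq : P (cur j) = P j := eq_of_subset_of_card_le hsub (by
      rw [hcur.1.2, (h.XC j hjX).2])
    exact havoid (heq ▸ hD.yP j hj)
  have hvB := h.sub _ hv1
  have hvX : v ∈ X.biUnion P := by
    by_contra hcon
    exact (disjoint_left.1 hW hv1) (mem_sdiff.2 ⟨hvB, hcon⟩)
  obtain ⟨b, hb, hvb⟩ := mem_biUnion.1 hvX
  have hbj : b ≠ j := fun hh => hv2 (hh ▸ hvb)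
  have h1 : ¬ Disjoint (P (cur j)) (P b) := Finset.not_disjoint_iff.2 ⟨v, hv1, hvb⟩
  have hbQ : b ∈ Q := by
    by_contra hcon
    have h2 := hS.far j hjX b hb hbj.symm
    rw [hS.off b hb hcon] at h2
    exact h1 h2
  have hbR := hQ hbQ
  have h2 := h.G1 hQ hS hjR hbR hbj.symm h1 hno
  have h3 : b = o j := by
    by_contra hne
    refine hS.nomut j hjX b hb hbj.symm (fun hh => hne hh.2.symm) (fun hh => ?_) ⟨h1, h2⟩
    exact hD.oL b hh.1 (hh.2 ▸ hj)
  subst h3
  exact ⟨h1, h2⟩

omit [Fintype V] in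
/-- **Theorem S.** -/
theorem theoremS (h : Sys K P B X Z Φ) {L : Finset V} {o g y : V → V}
    (hD : Data P (X \ Φ) L o g y) :
    L.card ≤ (L.image o).card + 2 * (B \ X.biUnion P).card := by
  classical
  obtain ⟨cur, Q, hQ, hLQ, hS⟩ := h.process hD
  set W := B \ X.biUnion P with hWdef
  have hLX : ∀ j ∈ L, j ∈ X := fun j hj => (mem_sdiff.1 (hD.LR hj)).1
  set U := X.biUnion (fun x => P (cur x)) with hU
  have hUcard : U.card = X.card * K := by
    rw [hU, card_biUnion (fun x hx z hz hne => hS.far x hx z hz hne)]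
    rw [sum_congr rfl (fun x hx => (hS.mem x hx).1.2), sum_const, smul_eq_mul]
  have hXPcard : (X.biUnion P).card = X.card * K := by
    rw [card_biUnion (fun x hx z hz hne => h.disj x hx z hz hne)]
    rw [sum_congr rfl (fun x hx => (h.XC x hx).2), sum_const, smul_eq_mul]
  have hUB : U ⊆ B := by
    intro v hv
    obtain ⟨x, -, hv⟩ := mem_biUnion.1 hv
    exact h.sub _ hv
  have hholes : (X.biUnion P \ U).card ≤ W.card := by
    have h1 : (U \ X.biUnion P).card ≤ W.card := card_le_card (by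
      intro v hv
      rw [mem_sdiff] at hv
      exact mem_sdiff.2 ⟨hUB hv.1, hv.2⟩)
    have h2 := card_sdiff_add_card_inter (X.biUnion P) U
    have h3 := card_sdiff_add_card_inter U (X.biUnion P)
    rw [inter_comm] at h3
    omega
  set Us := L.filter (fun j => ¬ Disjoint (P (cur j)) W) with hUs
  set Bd := L.filter (fun j => ∃ p ∈ P j, ∀ x ∈ X, p ∉ P (cur x)) with hBd
  have hUscard : Us.card ≤ W.card := by
    have hex : ∀ j ∈ Us, ∃ w ∈ W, w ∈ P (cur j) := by
      intro j hj
      obtain ⟨w, hw1, hw2⟩ := Finset.not_disjoint_iff.1 (mem_filter.1 hj).2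
      exact ⟨w, hw2, hw1⟩
    choose! φ hφ1 hφ2 using hex
    apply card_le_card_of_injOn φ
    · intro j hj; exact hφ1 j hj
    · intro a ha b hb hab
      by_contra hne
      have ha' : a ∈ Us := ha
      have hb' : b ∈ Us := hb
      have h1 := hφ2 a ha'
      have h2 := hφ2 b hb'
      rw [← hab] at h2
      exact not_disj h1 h2 (hS.far a (hLX a (mem_filter.1 ha').1) b
        (hLX b (mem_filter.1 hb').1) hne)
  have hBdcard : Bd.card ≤ W.card := by
    refine le_trans ?_ hholes
    have hex : ∀ j ∈ Bd, ∃ w ∈ X.biUnion P \ U, w ∈ P j := by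
      intro j hj
      obtain ⟨hjL, p, hp1, hp2⟩ := mem_filter.1 hj
      refine ⟨p, mem_sdiff.2 ⟨mem_biUnion.2 ⟨j, hLX j hjL, hp1⟩, fun hh => ?_⟩, hp1⟩
      obtain ⟨x, hx, hpx⟩ := mem_biUnion.1 hh
      exact hp2 x hx hpx
    choose! φ hφ1 hφ2 using hex
    apply card_le_card_of_injOn φ
    · intro j hj; exact hφ1 j hj
    · intro a ha b hb hab
      by_contra hne
      have ha' : a ∈ Bd := ha
      have hb' : b ∈ Bd := hb
      have h1 := hφ2 a ha'
      have h2 := hφ2 b hb'
      rw [← hab] at h2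
      exact not_disj h1 h2 (h.disj a (hLX a (mem_filter.1 ha').1) b
        (hLX b (mem_filter.1 hb').1) hne)
  set Gd := L \ (Us ∪ Bd) with hGd
  have hGdcard : Gd.card ≤ (L.image o).card := by
    apply card_le_card_of_injOn o
    · intro j hj
      have hj' : j ∈ Gd := hj
      exact mem_image_of_mem o (mem_sdiff.1 hj').1
    · intro a ha b hb hab
      by_contra hne
      have ha' : a ∈ Gd := ha
      have hb' : b ∈ Gd := hb
      obtain ⟨haL, ha2⟩ := mem_sdiff.1 ha'
      obtain ⟨hbL, hb2⟩ := mem_sdiff.1 hb'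
      rw [mem_union, not_or] at ha2 hb2
      have haU : Disjoint (P (cur a)) W := by
        by_contra hcon; exact ha2.1 (mem_filter.2 ⟨haL, hcon⟩)
      have hbU : Disjoint (P (cur b)) W := by
        by_contra hcon; exact hb2.1 (mem_filter.2 ⟨hbL, hcon⟩)
      have haN : ¬ ∃ p ∈ P a, ∀ x ∈ X, p ∉ P (cur x) := fun hh =>
        ha2.2 (mem_filter.2 ⟨haL, hh⟩)
      have hbN : ¬ ∃ p ∈ P b, ∀ x ∈ X, p ∉ P (cur x) := fun hh =>
        hb2.2 (mem_filter.2 ⟨hbL, hh⟩)
      obtain ⟨a1, a2⟩ := h.good_leaf hD hQ hLQ hS haL haN haU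
      obtain ⟨b1, b2⟩ := h.good_leaf hD hQ hLQ hS hbL hbN hbU
      rw [← hab] at b1 b2
      have hoa : a ≠ o a := fun hh => hD.oL a haL (by rw [← hh]; exact haL)
      have hob : b ≠ o a := fun hh => hD.oL a haL (by rw [← hh]; exact hbL)
      have c1 := h.G2 hQ hS (hD.LR haL) (hD.oR a haL) (hD.LR hbL) hoa hne hob.symm a1 b2 haN
      have c2 := h.G2 hQ hS (hD.LR hbL) (hD.oR a haL) (hD.LR haL) hob (Ne.symm hne) hoa.symm
        b1 a2 hbN
      refine hS.nomut a (hLX a haL) b (hLX b hbL) hne (fun hh => ?_) (fun hh => ?_) ⟨c2, c1⟩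
      · exact hD.oL a haL (hh.2 ▸ hbL)
      · exact hD.oL b hbL (hh.2 ▸ haL)
  have h1 : L.card ≤ Gd.card + (Us ∪ Bd).card := by
    have := card_sdiff_add_card_inter L (Us ∪ Bd)
    rw [← hGd] at this
    have h2 : (L ∩ (Us ∪ Bd)).card ≤ (Us ∪ Bd).card := card_le_card inter_subset_right
    omega
  have h2 := card_union_le Us Bd
  omega

end Sys

end Pool.Agent.StarAbs
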