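import Mathlib

/-!
# A graph lemma: many leaves in vertex-disjoint stars

`T` is a symmetric irreflexive relation on a finite set `R`.  A star family is a set `L` of leaves
with a map `o` sending each leaf to an adjacent centre outside `L`.
-/

set_option autoImplicit false

namespace Pool.Agent.StarAbs

open Finset

variable {V : Type*} [Fintype V] [DecidableEq V]

/-- `(L, o)` is a family of vertex-disjoint stars in `R`: leaves `L`, centres `o j`. -/
def Fam (R : Finset V) (T : V → V → Prop) (L : Finset V) (o : V → V) : Prop :=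
  L ⊆ R ∧ ∀ j ∈ L, o j ∈ R ∧ o j ∉ L ∧ T j (o j)

/-- `x` lies in a component with at most two vertices. -/
def Small (R : Finset V) (T : V → V → Prop) (x : V) : Prop :=
  (∀ a ∈ R, ∀ b ∈ R, T x a → T x b → a = b) ∧ ∀ a ∈ R, T x a → ∀ b ∈ R, T a b → b = x

open Classical in
/-- Existence of a star family maximising the number of leaves minus the number of stars. -/
lemma exists_best (R : Finset V) (T : V → V → Prop) :
    ∃ L o, Fam R T L o ∧ ∀ L' o', Fam R T L' o' →
      L'.card + (L.image o).card ≤ L.card + (L'.image o').card ∧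
      (L'.card + (L.image o).card = L.card + (L'.image o').card → L.card ≤ L'.card) := by
  let S : Finset (Finset V × (V → V)) := univ.filter (fun p => Fam R T p.1 p.2)
  have hne : S.Nonempty := by
    exact ⟨(∅, id), mem_filter.2 ⟨mem_univ _, empty_subset _, by simp⟩⟩
  obtain ⟨p, hp, hmax⟩ := S.exists_max_image
    (fun p => (R.card + 1) * (p.1.card - (p.1.image p.2).card) + (R.card - p.1.card)) hne
  have hpF : Fam R T p.1 p.2 := by simpa [S] using hp
  refine ⟨p.1, p.2, hpF, ?_⟩
  intro L' o' hF
  have hmem : (L', o') ∈ S := by simpa [S] using hF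
  have h := hmax (L', o') hmem
  simp only at h
  have h1 : (L'.image o').card ≤ L'.card := card_image_le
  have h2 : (p.1.image p.2).card ≤ p.1.card := card_image_le
  have h3 : L'.card ≤ R.card := card_le_card hF.1
  have h4 : p.1.card ≤ R.card := card_le_card hpF.1
  obtain ⟨a, ha⟩ := Nat.exists_eq_add_of_le h1
  obtain ⟨b, hb⟩ := Nat.exists_eq_add_of_le h2
  have e1 : L'.card - (L'.image o').card = a := by omega
  have e2 : p.1.card - (p.1.image p.2).card = b := by omega
  rw [e1, e2] at h
  have hab : a ≤ b := by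
    by_contra hcon
    have : (R.card + 1) * (b + 1) ≤ (R.card + 1) * a := Nat.mul_le_mul_left _ (by omega)
    have e : (R.card + 1) * (b + 1) = (R.card + 1) * b + (R.card + 1) := by ring
    omega
  refine ⟨by omega, fun heq => ?_⟩
  have : a = b := by omega
  subst this
  omega

open Classical in
/-- The graph lemma. -/
theorem star_lemma (R : Finset V) (T : V → V → Prop) (hsym : ∀ x y, T x y → T y x)
    (hirr : ∀ x, ¬ T x x) :
    ∃ L o, Fam R T L o ∧
      (R.filter (fun x => ¬ Small R T x)).card + 11 * (L.image o).card ≤ 11 * L.card := by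
  obtain ⟨L, o, hF, hmax⟩ := exists_best R T
  refine ⟨L, o, hF, ?_⟩
  set O := L.image o with hO
  have hOR : ∀ i ∈ O, i ∈ R ∧ i ∉ L := by
    intro i hi
    obtain ⟨j, hj, rfl⟩ := mem_image.1 hi
    exact ⟨(hF.2 j hj).1, (hF.2 j hj).2.1⟩
  -- every star has at least two leaves
  have ht : 2 * O.card ≤ L.card := by
    refine mul_card_image_le_card L 2 ?_
    intro i hi
    by_contra hcon
    obtain ⟨j, hj, hji⟩ := mem_image.1 hi
    have hcard : (L.filter (fun x => o x = i)).card = 1 := by
      have : 0 < (L.filter (fun x => o x = i)).card :=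
        card_pos.2 ⟨j, mem_filter.2 ⟨hj, hji⟩⟩
      omega
    have huniq : ∀ x ∈ L, o x = i → x = j := by
      intro x hx hxi
      obtain ⟨z, hz⟩ := card_eq_one.1 hcard
      have h1 : x ∈ ({z} : Finset V) := hz ▸ mem_filter.2 ⟨hx, hxi⟩
      have h2 : j ∈ ({z} : Finset V) := hz ▸ mem_filter.2 ⟨hj, hji⟩
      rw [mem_singleton] at h1 h2
      rw [h1, h2]
    have hF' : Fam R T (L.erase j) o := by
      refine ⟨(erase_subset _ _).trans hF.1, fun x hx => ?_⟩
      have hxL := (mem_erase.1 hx).2
      exact ⟨(hF.2 x hxL).1, fun hh => (hF.2 x hxL).2.1 (mem_erase.1 hh).2, (hF.2 x hxL).2.2⟩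
    have himg : (L.erase j).image o = O.erase i := by
      ext z
      simp only [mem_image, mem_erase, hO]
      constructor
      · rintro ⟨x, ⟨hxj, hx⟩, rfl⟩
        exact ⟨fun hh => hxj (huniq x hx hh), x, hx, rfl⟩
      · rintro ⟨hzi, x, hx, rfl⟩
        exact ⟨x, ⟨fun hh => hzi (by rw [hh, hji]), hx⟩, rfl⟩
    have h1 := hmax _ _ hF'
    rw [himg, card_erase_of_mem hj, card_erase_of_mem (show i ∈ O from hi)] at h1
    have hLpos : 0 < L.card := card_pos.2 ⟨j, hj⟩
    have hi' : i ∈ O := hi
    have hOpos : 0 < O.card := card_pos.2 ⟨i, hi'⟩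
    have := h1.2 (by omega)
    omega
  set U := R \ (L ∪ O) with hU
  have hUmem : ∀ u, u ∈ U ↔ u ∈ R ∧ u ∉ L ∧ u ∉ O := by
    intro u
    simp [hU, mem_sdiff, mem_union]
  -- (a) a centre has no neighbour in U
  have ha : ∀ i ∈ O, ∀ u ∈ U, ¬ T u i := by
    intro i hi u hu hT
    rw [hUmem] at hu
    have hF' : Fam R T (insert u L) (Function.update o u i) := by
      refine ⟨insert_subset hu.1 hF.1, fun x hx => ?_⟩
      rcases mem_insert.1 hx with rfl | hx
      · rw [Function.update_self]
        refine ⟨(hOR i hi).1, ?_, hT⟩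
        rw [mem_insert]
        rintro (hh | hh)
        · exact hirr _ (by rw [hh] at hT; exact hT)
        · exact (hOR i hi).2 hh
      · have hxu : x ≠ u := fun hh => hu.2.1 (hh ▸ hx)
        rw [Function.update_of_ne hxu]
        refine ⟨(hF.2 x hx).1, ?_, (hF.2 x hx).2.2⟩
        rw [mem_insert]
        rintro (hh | hh)
        · exact hu.2.2 (hh ▸ mem_image_of_mem o hx)
        · exact (hF.2 x hx).2.1 hh
    have himg : (insert u L).image (Function.update o u i) ⊆ O := by
      intro z hz
      obtain ⟨x, hx, rfl⟩ := mem_image.1 hz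
      rcases mem_insert.1 hx with rfl | hx
      · rw [Function.update_self]; exact hi
      · have hxu : x ≠ u := fun hh => hu.2.1 (hh ▸ hx)
        rw [Function.update_of_ne hxu]; exact mem_image_of_mem o hx
    have h1 := (hmax _ _ hF').1
    have h2 := card_le_card himg
    rw [card_insert_of_notMem hu.2.1] at h1
    omega
  -- general exchange: new centre `c`, new leaves `A`, removing the leaf `c` if necessary
  have hex : ∀ c ∈ R, c ∉ O → ∀ A ⊆ U, c ∉ A → (∀ a ∈ A, T a c) →
      A.card ≤ 1 + (if c ∈ L then 1 else 0) := by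
    intro c hc hcO A hAU hcA hAT
    set L' := (L.erase c) ∪ A with hL'
    set o' : V → V := fun x => if x ∈ A then c else o x with ho'
    have hAL : ∀ a ∈ A, a ∉ L := fun a haA => ((hUmem a).1 (hAU haA)).2.1
    have hF' : Fam R T L' o' := by
      refine ⟨union_subset ((erase_subset _ _).trans hF.1)
        (fun a haA => ((hUmem a).1 (hAU haA)).1), fun x hx => ?_⟩
      by_cases hxA : x ∈ A
      · simp only [ho', hxA, if_true]
        refine ⟨hc, ?_, hAT x hxA⟩
        rw [hL', mem_union]
        rintro (hh | hh)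
        · exact (mem_erase.1 hh).1 rfl
        · exact hcA hh
      · have hxL : x ∈ L := by
          rcases mem_union.1 hx with hh | hh
          · exact (mem_erase.1 hh).2
          · exact absurd hh hxA
        simp only [ho', hxA, if_false]
        refine ⟨(hF.2 x hxL).1, ?_, (hF.2 x hxL).2.2⟩
        rw [hL', mem_union]
        rintro (hh | hh)
        · exact (hF.2 x hxL).2.1 (mem_erase.1 hh).2
        · exact ((hUmem _).1 (hAU hh)).2.2 (mem_image_of_mem o hxL)
    have himg : L'.image o' ⊆ insert c O := by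
      intro z hz
      obtain ⟨x, hx, rfl⟩ := mem_image.1 hz
      by_cases hxA : x ∈ A
      · simp [ho', hxA]
      · have hxL : x ∈ L := by
          rcases mem_union.1 hx with hh | hh
          · exact (mem_erase.1 hh).2
          · exact absurd hh hxA
        simp only [ho', hxA, if_false]
        exact mem_insert_of_mem (mem_image_of_mem o hxL)
    have h1 := (hmax _ _ hF').1
    have h2 := (card_le_card himg).trans (card_insert_le _ _)
    have h3 : L'.card = (L.erase c).card + A.card := by
      apply card_union_of_disjoint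
      rw [disjoint_left]
      intro x hx hxA
      exact hAL x hxA (mem_erase.1 hx).2
    by_cases hcL : c ∈ L
    · rw [if_pos hcL]
      rw [card_erase_of_mem hcL] at h3
      have : 0 < L.card := card_pos.2 ⟨c, hcL⟩
      omega
    · rw [if_neg hcL]
      rw [erase_eq_of_notMem hcL] at h3
      omega
  -- (b) a vertex of U has at most one neighbour in U
  have hb : ∀ u ∈ U, ∀ u₁ ∈ U, ∀ u₂ ∈ U, T u u₁ → T u u₂ → u₁ = u₂ := by
    intro u hu u₁ h₁ u₂ h₂ hT₁ hT₂
    by_contra hne
    have := hex u ((hUmem u).1 hu).1 ((hUmem u).1 hu).2.2 {u₁, u₂}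
      (by intro a ha'; rcases mem_insert.1 ha' with rfl | ha'
          · exact h₁
          · rw [mem_singleton.1 ha']; exact h₂)
      (by intro hh; rcases mem_insert.1 hh with hh | hh
          · exact hirr u (by rw [← hh] at hT₁; exact hT₁)
          · rw [mem_singleton] at hh; exact hirr u (by rw [← hh] at hT₂; exact hT₂))
      (by intro a ha'; rcases mem_insert.1 ha' with rfl | ha'
          · exact hsym _ _ hT₁
          · rw [mem_singleton.1 ha']; exact hsym _ _ hT₂)
    rw [card_pair hne, if_neg ((hUmem u).1 hu).2.1] at this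
    omega
  -- (c) a leaf has at most two neighbours in U
  have hc : ∀ j ∈ L, (U.filter (fun u => T u j)).card ≤ 2 := by
    intro j hj
    have hjO : j ∉ O := by
      intro hh
      exact (hOR j hh).2 hj
    have := hex j (hF.1 hj) hjO (U.filter (fun u => T u j)) (filter_subset _ _)
      (by intro hh; exact ((hUmem j).1 (mem_filter.1 hh).1).2.1 hj)
      (by intro a ha'; exact (mem_filter.1 ha').2)
    rw [if_pos hj] at this
    exact this
  -- U₁: vertices of U with a neighbour in L
  set U₁ := U.filter (fun u => ∃ j ∈ L, T u j) with hU₁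
  have hU₁card : U₁.card ≤ 2 * L.card := by
    have hsub : U₁ ⊆ L.biUnion (fun j => U.filter (fun u => T u j)) := by
      intro u hu
      obtain ⟨hu1, j, hj, hT⟩ := mem_filter.1 hu
      exact mem_biUnion.2 ⟨j, hj, mem_filter.2 ⟨hu1, hT⟩⟩
    calc U₁.card ≤ (L.biUnion (fun j => U.filter (fun u => T u j))).card := card_le_card hsub
      _ ≤ L.card * 2 := card_biUnion_le_card_mul _ _ _ hc
      _ = 2 * L.card := mul_comm _ _
  set Big := R.filter (fun x => ¬ Small R T x) with hBig
  set U₂ := (Big ∩ U) \ U₁ with hU₂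
  -- every vertex of U₂ has a neighbour in U₁
  have hnb : ∀ u ∈ U₂, ∃ v ∈ U₁, T u v := by
    intro u hu
    obtain ⟨hu1, hu2⟩ := mem_sdiff.1 hu
    obtain ⟨hu3, hu4⟩ := mem_inter.1 hu1
    obtain ⟨huR, hns⟩ := mem_filter.1 hu3
    have hnoL : ∀ j ∈ L, ¬ T u j := by
      intro j hj hT
      exact hu2 (mem_filter.2 ⟨hu4, j, hj, hT⟩)
    have hnbU : ∀ a ∈ R, T u a → a ∈ U := by
      intro a haR hT
      rw [hUmem]
      exact ⟨haR, fun hh => hnoL a hh hT, fun hh => ha a hh u hu4 hT⟩
    have hone : ∀ a ∈ R, ∀ b ∈ R, T u a → T u b → a = b := by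
      intro a haR b hbR hTa hTb
      exact hb u hu4 a (hnbU a haR hTa) b (hnbU b hbR hTb) hTa hTb
    have : ¬ ∀ a ∈ R, T u a → ∀ b ∈ R, T a b → b = u := fun hh => hns ⟨hone, hh⟩
    push Not at this
    obtain ⟨a, haR, hTa, b, hbR, hTb, hbu⟩ := this
    have haU := hnbU a haR hTa
    refine ⟨a, mem_filter.2 ⟨haU, b, ?_, hTb⟩, hTa⟩
    by_contra hbL
    have hbO : b ∉ O := fun hh => ha b hh a haU hTb
    have hbU : b ∈ U := (hUmem b).2 ⟨hbR, hbL, hbO⟩
    exact hbu (hb a haU b hbU u hu4 hTb (hsym _ _ hTa))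
  have hU₂card : U₂.card ≤ U₁.card := by
    choose! φ hφ1 hφ2 using hnb
    apply card_le_card_of_injOn φ
    · intro u hu
      exact hφ1 u hu
    · intro u hu v hv huv
      have hu' : u ∈ U₂ := hu
      have hv' : v ∈ U₂ := hv
      have huU : u ∈ U := (mem_inter.1 (mem_sdiff.1 hu').1).2
      have hvU : v ∈ U := (mem_inter.1 (mem_sdiff.1 hv').1).2
      have hφU : φ u ∈ U := (mem_filter.1 (hφ1 u hu')).1
      have h1 := hφ2 u hu'
      have h2 := hφ2 v hv'
      rw [← huv] at h2
      exact hb (φ u) hφU u huU v hvU (hsym _ _ h1) (hsym _ _ h2)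
  have hBigsub : Big ⊆ L ∪ O ∪ (U₁ ∪ U₂) := by
    intro x hx
    by_cases hxL : x ∈ L
    · simp [hxL]
    by_cases hxO : x ∈ O
    · simp [hxO]
    have hxU : x ∈ U := (hUmem x).2 ⟨(mem_filter.1 hx).1, hxL, hxO⟩
    by_cases hx1 : x ∈ U₁
    · simp [hx1]
    · have : x ∈ U₂ := mem_sdiff.2 ⟨mem_inter.2 ⟨hx, hxU⟩, hx1⟩
      simp [this]
  have h1 := card_le_card hBigsub
  have h2 := card_union_le (L ∪ O) (U₁ ∪ U₂)
  have h3 := card_union_le L O
  have h4 := card_union_le U₁ U₂
  omega

end Pool.Agent.StarAbs
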