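import Pool.Agent.StarAbs.GL

/-!
# The exchange process (Theorem S)

`P x` is a truncated closed neighbourhood (inside `B`), `X` a family of pairwise far centres (tiles
`P x`), `Z` a set of guards, `Φ ⊆ X` the frozen tiles.  The key assumption `M` says that the system
cannot be shortened.
-/

set_option autoImplicit false

namespace Pool.Agent.StarAbs

open Finset

variable {V : Type*} [Fintype V] [DecidableEq V]

/-- A system that cannot be shortened. -/
structure Sys (K : ℕ) (P : V → Finset V) (B X Z Φ : Finset V) : Prop where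
  sub : ∀ x, P x ⊆ B
  self : ∀ x ∈ B, x ∈ P x
  sym : ∀ x y, x ∈ P y → y ∈ B → y ∈ P x
  XC : ∀ x ∈ X, x ∈ B ∧ (P x).card = K
  disj : ∀ x ∈ X, ∀ y ∈ X, x ≠ y → Disjoint (P x) (P y)
  PhiX : Φ ⊆ X
  guard : ∀ c ∈ B, (P c).card = K → c ∉ X.biUnion P →
    (∃ x ∈ Φ, ¬ Disjoint (P x) (P c)) ∨ ∃ z ∈ Z, ¬ Disjoint (P z) (P c)
  M : ∀ Y E : Finset V, (∀ y ∈ Y, y ∈ B ∧ (P y).card = K) →
    (∀ x ∈ Y, ∀ y ∈ Y, x ≠ y → Disjoint (P x) (P y)) → E.card ≤ 2 →
    Y.card + E.card + 1 ≤ X.card →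
    ∃ c ∈ B, (P c).card = K ∧ (∀ y ∈ Y, Disjoint (P y) (P c)) ∧ (∀ z ∈ Z, Disjoint (P z) (P c)) ∧
      ∀ e ∈ E, Disjoint (P e) (P c)

variable {K : ℕ} {P : V → Finset V} {B X Z Φ : Finset V}

namespace Sys

omit [Fintype V] in
lemma not_disj {x a b : V} (h1 : x ∈ P a) (h2 : x ∈ P b) : ¬ Disjoint (P a) (P b) := by
  rw [Finset.not_disjoint_iff]
  exact ⟨x, h1, h2⟩

omit [Fintype V] in
/-- The survivor lemma. -/
lemma key (h : Sys K P B X Z Φ) {T : Finset V} (hT : T ⊆ X \ Φ) (hT3 : T.card ≤ 3) {j : V}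
    (hj : j ∈ T) {cur e : V → V}
    (hmem : ∀ x ∈ X \ T, (cur x ∈ B ∧ (P (cur x)).card = K) ∧ cur x ∈ P x)
    (hfar : ∀ x ∈ X \ T, ∀ y ∈ X \ T, x ≠ y → Disjoint (P (cur x)) (P (cur y)))
    (hΦ : ∀ x ∈ Φ, cur x = x)
    (he : ∀ t ∈ T.erase j, e t ∈ P t) :
    ∃ c, c ∈ B ∧ (P c).card = K ∧ c ∈ P j ∧ (∀ x ∈ X \ T, Disjoint (P (cur x)) (P c)) ∧
      ∀ t ∈ T.erase j, Disjoint (P (e t)) (P c) := by
  have hTX : T ⊆ X := fun t ht => (mem_sdiff.1 (hT ht)).1
  have hcard : (X \ T).card + T.card = X.card := card_sdiff_add_card_eq_card hTX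
  have hTe : (T.erase j).card + 1 = T.card := card_erase_add_one hj
  obtain ⟨c, hcB, hcK, hcY, hcZ, hcE⟩ := h.M ((X \ T).image cur) ((T.erase j).image e)
    (by
      intro y hy
      obtain ⟨x, hx, rfl⟩ := mem_image.1 hy
      exact (hmem x hx).1)
    (by
      intro y hy y' hy' hne
      obtain ⟨x, hx, rfl⟩ := mem_image.1 hy
      obtain ⟨x', hx', rfl⟩ := mem_image.1 hy'
      exact hfar x hx x' hx' (fun hh => hne (by rw [hh])))
    ((card_image_le).trans (by omega))
    (by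
      have h1 : ((X \ T).image cur).card ≤ (X \ T).card := card_image_le
      have h2 : ((T.erase j).image e).card ≤ (T.erase j).card := card_image_le
      omega)
  have hY : ∀ x ∈ X \ T, Disjoint (P (cur x)) (P c) := fun x hx => hcY _ (mem_image_of_mem cur hx)
  have hE : ∀ t ∈ T.erase j, Disjoint (P (e t)) (P c) := fun t ht => hcE _ (mem_image_of_mem e ht)
  refine ⟨c, hcB, hcK, ?_, hY, hE⟩
  have hcX : c ∈ X.biUnion P := by
    by_contra hcon
    rcases h.guard c hcB hcK hcon with ⟨x, hx, hnd⟩ | ⟨z, hz, hnd⟩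
    · have hxT : x ∈ X \ T := by
        rw [mem_sdiff]
        refine ⟨h.PhiX hx, fun hh => ?_⟩
        exact (mem_sdiff.1 (hT hh)).2 hx
      have := hY x hxT
      rw [hΦ x hx] at this
      exact hnd this
    · exact hnd (hcZ z hz)
  obtain ⟨x, hx, hcx⟩ := mem_biUnion.1 hcX
  have hxc : x ∈ P c := h.sym c x hcx (h.XC x hx).1
  by_cases hxT : x ∈ T
  · by_cases hxj : x = j
    · rwa [hxj] at hcx
    · exfalso
      have hxe : x ∈ T.erase j := mem_erase.2 ⟨hxj, hxT⟩
      exact not_disj (h.sym _ _ (he x hxe) (h.XC x hx).1) hxc (hE x hxe)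
  · exfalso
    have hxX : x ∈ X \ T := mem_sdiff.2 ⟨hx, hxT⟩
    exact not_disj (h.sym _ _ (hmem x hxX).2 (h.XC x hx).1) hxc (hY x hxX)

/-- The state of the exchange process.  `Q` is the set of processed tiles. -/
structure State (K : ℕ) (P : V → Finset V) (B X : Finset V) (L : Finset V) (o y : V → V)
    (Q : Finset V) (cur : V → V) : Prop where
  off : ∀ x ∈ X, x ∉ Q → cur x = x
  mem : ∀ x ∈ X, (cur x ∈ B ∧ (P (cur x)).card = K) ∧ cur x ∈ P x
  far : ∀ x ∈ X, ∀ z ∈ X, x ≠ z → Disjoint (P (cur x)) (P (cur z))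
  avoid : ∀ j ∈ L, j ∈ Q → y j ∉ P (cur j)
  nomut : ∀ a ∈ X, ∀ b ∈ X, a ≠ b → ¬ (a ∈ L ∧ o a = b) → ¬ (b ∈ L ∧ o b = a) →
    ¬ (¬ Disjoint (P (cur a)) (P b) ∧ ¬ Disjoint (P (cur b)) (P a))

/-- The state inside a star with centre `i` (whose tile is temporarily free). -/
structure Mid (K : ℕ) (P : V → Finset V) (B X : Finset V) (L : Finset V) (o y : V → V)
    (i : V) (J Q : Finset V) (cur : V → V) : Prop where
  off : ∀ x ∈ X, x ∉ Q → x ∉ J → cur x = x
  mem : ∀ x ∈ X, (cur x ∈ B ∧ (P (cur x)).card = K) ∧ cur x ∈ P x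
  far : ∀ x ∈ X, ∀ z ∈ X, x ≠ i → z ≠ i → x ≠ z → Disjoint (P (cur x)) (P (cur z))
  fari : ∀ x ∈ X, x ≠ i → x ∉ J → Disjoint (P (cur x)) (P i)
  avoid : ∀ j ∈ L, j ∈ Q ∪ J → y j ∉ P (cur j)
  nomut : ∀ a ∈ X, ∀ b ∈ X, a ≠ b → ¬ (a ∈ L ∧ o a = b) → ¬ (b ∈ L ∧ o b = a) →
    ¬ (¬ Disjoint (P (cur a)) (P b) ∧ ¬ Disjoint (P (cur b)) (P a))

/-- Star data. -/
structure Data (P : V → Finset V) (R : Finset V) (L : Finset V) (o g y : V → V) : Prop where
  LR : L ⊆ R
  oR : ∀ j ∈ L, o j ∈ R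
  oL : ∀ j ∈ L, o j ∉ L
  gP : ∀ j ∈ L, g j ∈ P (o j)
  yP : ∀ j ∈ L, y j ∈ P j
  yg : ∀ j ∈ L, y j ∈ P (g j)

omit [Fintype V] in
lemma leaf_step (h : Sys K P B X Z Φ) {L : Finset V} {o g y : V → V}
    (hD : Data P (X \ Φ) L o g y) {i : V} {J Q : Finset V} {cur : V → V}
    (hi : i ∈ X \ Φ) (hiQ : i ∉ Q) (hiJ : i ∉ J) (hJL : ∀ j ∈ J, j ∈ L ∧ o j = i)
    (hQ : Q ⊆ X \ Φ)
    (hM : Mid K P B X L o y i J Q cur) {j : V} (hj : j ∈ L) (hoj : o j = i) (hjQ : j ∉ Q)
    (hjJ : j ∉ J) : ∃ cur', Mid K P B X L o y i (insert j J) Q cur' := by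
  have hjR : j ∈ X \ Φ := hD.LR hj
  have hjX : j ∈ X := (mem_sdiff.1 hjR).1
  have hiX : i ∈ X := (mem_sdiff.1 hi).1
  have hij : i ≠ j := by
    intro hh
    exact hD.oL j hj (by rw [hoj, hh]; exact hj)
  have hcurj : cur j = j := hM.off j hjX hjQ hjJ
  obtain ⟨c, hcB, hcK, hcj, hcX, hcg⟩ := h.key (T := {i, j}) (j := j) (cur := cur)
    (e := fun _ => g j)
    (by
      intro t ht
      rcases mem_insert.1 ht with rfl | ht
      · exact hi
      · rw [mem_singleton.1 ht]; exact hjR)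
    (by rw [card_pair hij]; omega) (by simp)
    (fun x hx => hM.mem x (mem_sdiff.1 hx).1)
    (by
      intro x hx z hz hne
      rw [mem_sdiff, mem_insert, mem_singleton, not_or] at hx hz
      exact hM.far x hx.1 z hz.1 hx.2.1 hz.2.1 hne)
    (by
      intro x hx
      refine hM.off x (h.PhiX hx) (fun hh => (mem_sdiff.1 (hQ hh)).2 hx) (fun hh => ?_)
      exact (mem_sdiff.1 (hD.LR (hJL x hh).1)).2 hx)
    (by
      intro t ht
      rw [mem_erase, mem_insert, mem_singleton] at ht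
      have : t = i := by tauto
      rw [this, ← hoj]
      exact hD.gP j hj)
  have hcX' : ∀ x ∈ X, x ≠ i → x ≠ j → Disjoint (P (cur x)) (P c) := by
    intro x hx h1 h2
    exact hcX x (by simp [hx, h1, h2])
  have hcg' : Disjoint (P (g j)) (P c) := hcg i (by simp [hij])
  -- tiles entered before
  have hent : ∀ b ∈ X, b ≠ i → b ≠ j → Disjoint (P (cur b)) (P j) := by
    intro b hb h1 h2
    have := hM.far b hb j hjX h1 hij.symm h2
    rwa [hcurj] at this
  refine ⟨Function.update cur j c, ?_, ?_, ?_, ?_, ?_, ?_⟩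
  · intro x hx hxQ hxJ
    rw [mem_insert, not_or] at hxJ
    rw [Function.update_of_ne hxJ.1]
    exact hM.off x hx hxQ hxJ.2
  · intro x hx
    by_cases hxj : x = j
    · subst hxj
      rw [Function.update_self]
      exact ⟨⟨hcB, hcK⟩, hcj⟩
    · rw [Function.update_of_ne hxj]
      exact hM.mem x hx
  · intro x hx z hz hxi hzi hne
    by_cases hxj : x = j
    · subst hxj
      rw [Function.update_self, Function.update_of_ne hne.symm]
      exact (hcX' z hz hzi hne.symm).symm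
    · rw [Function.update_of_ne hxj]
      by_cases hzj : z = j
      · subst hzj
        rw [Function.update_self]
        exact hcX' x hx hxi hne
      · rw [Function.update_of_ne hzj]
        exact hM.far x hx z hz hxi hzi hne
  · intro x hx hxi hxJ
    rw [mem_insert, not_or] at hxJ
    rw [Function.update_of_ne hxJ.1]
    exact hM.fari x hx hxi hxJ.2
  · intro j' hj' hj'Q
    by_cases hjj : j' = j
    · subst hjj
      rw [Function.update_self]
      intro hh
      exact not_disj (hD.yg j' hj') hh hcg'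
    · rw [Function.update_of_ne hjj]
      refine hM.avoid j' hj' ?_
      rw [mem_union, mem_insert] at hj'Q
      rw [mem_union]
      tauto
  · intro a ha b hb hne h1 h2
    rintro ⟨h3, h4⟩
    by_cases haj : a = j
    · subst haj
      have hbi : b ≠ i := fun hh => h1 ⟨hj, by rw [hoj, hh]⟩
      rw [Function.update_of_ne hne.symm] at h4
      exact h4 (hent b hb hbi hne.symm)
    · by_cases hbj : b = j
      · subst hbj
        have hai : a ≠ i := fun hh => h2 ⟨hj, by rw [hoj, hh]⟩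
        rw [Function.update_of_ne hne] at h3
        exact h3 (hent a ha hai hne)
      · rw [Function.update_of_ne haj] at h3
        rw [Function.update_of_ne hbj] at h4
        exact hM.nomut a ha b hb hne h1 h2 ⟨h3, h4⟩

omit [Fintype V] in
lemma leaves (h : Sys K P B X Z Φ) {L : Finset V} {o g y : V → V}
    (hD : Data P (X \ Φ) L o g y) {i : V} {Q : Finset V} {cur : V → V}
    (hi : i ∈ X \ Φ) (hiQ : i ∉ Q) (hiL : i ∉ L) (hQ : Q ⊆ X \ Φ)
    (hQL : ∀ j ∈ L, o j = i → j ∉ Q)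
    (hM : Mid K P B X L o y i ∅ Q cur) (J : Finset V) (hJL : ∀ j ∈ J, j ∈ L ∧ o j = i) :
    ∃ cur', Mid K P B X L o y i J Q cur' := by
  induction J using Finset.induction_on with
  | empty => exact ⟨cur, hM⟩
  | insert j J hjJ ih =>
    have hJL' : ∀ j ∈ J, j ∈ L ∧ o j = i := fun x hx => hJL x (mem_insert_of_mem hx)
    obtain ⟨cur1, h1⟩ := ih hJL'
    obtain ⟨hj1, hj2⟩ := hJL j (mem_insert_self _ _)
    exact leaf_step h hD hi hiQ (fun hh => hiL (hJL' i hh).1) hJL' hQ h1 hj1 hj2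
      (hQL j hj1 hj2) hjJ

omit [Fintype V] in
lemma star_step (h : Sys K P B X Z Φ) {L : Finset V} {o g y : V → V}
    (hD : Data P (X \ Φ) L o g y) {i : V} {Q : Finset V} {cur : V → V}
    (hi : i ∈ X \ Φ) (hiQ : i ∉ Q) (hiL : i ∉ L) (hQ : Q ⊆ X \ Φ)
    (hQL : ∀ j ∈ L, o j = i → j ∉ Q)
    (hS : State K P B X L o y Q cur) (J : Finset V) (hJL : ∀ j, j ∈ J ↔ j ∈ L ∧ o j = i) :
    ∃ cur', State K P B X L o y (insert i (Q ∪ J)) cur' := by
  have hiX : i ∈ X := (mem_sdiff.1 hi).1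
  have hcuri : cur i = i := hS.off i hiX hiQ
  have hM : Mid K P B X L o y i ∅ Q cur := by
    refine ⟨fun x hx hxQ _ => hS.off x hx hxQ, hS.mem, ?_, ?_, ?_, hS.nomut⟩
    · intro x hx z hz _ _ hne
      exact hS.far x hx z hz hne
    · intro x hx hxi _
      have := hS.far x hx i hiX hxi
      rwa [hcuri] at this
    · intro j hj hjQ
      rw [union_empty] at hjQ
      exact hS.avoid j hj hjQ
  obtain ⟨cur1, h1⟩ := leaves h hD hi hiQ hiL hQ hQL hM J (fun j hj => (hJL j).1 hj)
  have hiJ : i ∉ J := fun hh => hiL ((hJL i).1 hh).1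
  obtain ⟨c, hcB, hcK, hci, hcX, -⟩ := h.key (T := {i}) (j := i) (cur := cur1) (e := id)
    (by intro t ht; rw [mem_singleton.1 ht]; exact hi)
    (by simp) (by simp)
    (fun x hx => h1.mem x (mem_sdiff.1 hx).1)
    (by
      intro x hx z hz hne
      rw [mem_sdiff, mem_singleton] at hx hz
      exact h1.far x hx.1 z hz.1 hx.2 hz.2 hne)
    (by
      intro x hx
      refine h1.off x (h.PhiX hx) (fun hh => (mem_sdiff.1 (hQ hh)).2 hx) (fun hh => ?_)
      exact (mem_sdiff.1 (hD.LR ((hJL x).1 hh).1)).2 hx)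
    (by intro t ht; simp at ht)
  have hcX' : ∀ x ∈ X, x ≠ i → Disjoint (P (cur1 x)) (P c) := by
    intro x hx h1
    exact hcX x (by simp [hx, h1])
  refine ⟨Function.update cur1 i c, ?_, ?_, ?_, ?_, ?_⟩
  · intro x hx hxQ
    rw [mem_insert, mem_union, not_or, not_or] at hxQ
    rw [Function.update_of_ne hxQ.1]
    exact h1.off x hx hxQ.2.1 hxQ.2.2
  · intro x hx
    by_cases hxi : x = i
    · subst hxi
      rw [Function.update_self]
      exact ⟨⟨hcB, hcK⟩, hci⟩
    · rw [Function.update_of_ne hxi]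
      exact h1.mem x hx
  · intro x hx z hz hne
    by_cases hxi : x = i
    · subst hxi
      rw [Function.update_self, Function.update_of_ne hne.symm]
      exact (hcX' z hz hne.symm).symm
    · rw [Function.update_of_ne hxi]
      by_cases hzi : z = i
      · subst hzi
        rw [Function.update_self]
        exact hcX' x hx hne
      · rw [Function.update_of_ne hzi]
        exact h1.far x hx z hz hxi hzi hne
  · intro j hj hjQ
    have hji : j ≠ i := fun hh => hiL (hh ▸ hj)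
    rw [Function.update_of_ne hji]
    refine h1.avoid j hj ?_
    rw [mem_insert] at hjQ
    exact hjQ.resolve_left hji
  · intro a ha b hb hne h2 h3
    rintro ⟨h4, h5⟩
    by_cases hai : a = i
    · subst hai
      have hbJ : b ∉ J := fun hh => h3 ((hJL b).1 hh)
      rw [Function.update_of_ne hne.symm] at h5
      exact h5 (h1.fari b hb hne.symm hbJ)
    · by_cases hbi : b = i
      · subst hbi
        have haJ : a ∉ J := fun hh => h2 ((hJL a).1 hh)
        rw [Function.update_of_ne hne] at h4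
        exact h4 (h1.fari a ha hne haJ)
      · rw [Function.update_of_ne hai] at h4
        rw [Function.update_of_ne hbi] at h5
        exact h1.nomut a ha b hb hne h2 h3 ⟨h4, h5⟩

omit [Fintype V] in
/-- The exchange process. -/
lemma process (h : Sys K P B X Z Φ) {L : Finset V} {o g y : V → V}
    (hD : Data P (X \ Φ) L o g y) :
    ∃ cur Q, Q ⊆ X \ Φ ∧ L ⊆ Q ∧ State K P B X L o y Q cur := by
  have hmain : ∀ O : Finset V, O ⊆ L.image o →
      ∃ cur, State K P B X L o y (O ∪ L.filter (fun j => o j ∈ O)) cur := by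
    intro O
    induction O using Finset.induction_on with
    | empty =>
      intro _
      refine ⟨id, fun x _ _ => rfl, fun x hx => ⟨h.XC x hx, h.self x (h.XC x hx).1⟩, h.disj,
        ?_, ?_⟩
      · intro j _ hj
        simp at hj
      · intro a ha b hb hne _ _
        rintro ⟨h1, -⟩
        exact h1 (h.disj a ha b hb hne)
    | insert i O hiO ih =>
      intro hO
      obtain ⟨cur, hS⟩ := ih ((subset_insert _ _).trans hO)
      obtain ⟨j0, hj0, hj0i⟩ := mem_image.1 (hO (mem_insert_self i O))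
      have hi : i ∈ X \ Φ := hj0i ▸ hD.oR j0 hj0
      have hiL : i ∉ L := hj0i ▸ hD.oL j0 hj0
      have hiQ : i ∉ O ∪ L.filter (fun j => o j ∈ O) := by
        rw [mem_union, mem_filter]
        tauto
      have hQ : O ∪ L.filter (fun j => o j ∈ O) ⊆ X \ Φ := by
        intro x hx
        rcases mem_union.1 hx with hx | hx
        · obtain ⟨j, hj, rfl⟩ := mem_image.1 (hO (mem_insert_of_mem hx))
          exact hD.oR j hj
        · exact hD.LR (mem_filter.1 hx).1
      have hQL : ∀ j ∈ L, o j = i → j ∉ O ∪ L.filter (fun j => o j ∈ O) := by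
        intro j hj hji
        rw [mem_union, mem_filter, hji]
        rintro (hh | hh)
        · obtain ⟨j', hj', hjj⟩ := mem_image.1 (hO (mem_insert_of_mem hh))
          exact hD.oL j' hj' (hjj ▸ hj)
        · exact hiO hh.2
      obtain ⟨cur', hS'⟩ := star_step h hD hi hiQ hiL hQ hQL hS (L.filter (fun j => o j = i))
        (by intro j; rw [mem_filter])
      refine ⟨cur', ?_⟩
      have heq : insert i O ∪ L.filter (fun j => o j ∈ insert i O) =
          insert i (O ∪ L.filter (fun j => o j ∈ O) ∪ L.filter (fun j => o j = i)) := by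
        ext x
        simp only [mem_union, mem_insert, mem_filter]
        tauto
      rw [heq]
      exact hS'
  obtain ⟨cur, hS⟩ := hmain (L.image o) (Subset.refl _)
  refine ⟨cur, _, ?_, ?_, hS⟩
  · intro x hx
    rcases mem_union.1 hx with hx | hx
    · obtain ⟨j, hj, rfl⟩ := mem_image.1 hx
      exact hD.oR j hj
    · exact hD.LR (mem_filter.1 hx).1
  · intro j hj
    exact mem_union_right _ (mem_filter.2 ⟨hj, mem_image_of_mem o hj⟩)

end Sys

end Pool.Agent.StarAbs
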